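import Pool.Agent.Helper85.GD.Far

/-!
# Alternating diagrams: signs of the crossings, of the faces and along the Seifert circles
-/

set_option autoImplicit false

namespace Pool.Agent.Helper43.AF

open Pool.Agent.Helper85.Exp Pool.Agent.Helper2.PD Pool.Agent.Helper57.PD Finset

variable {P : Type} {G : Sh P}

/-- The diagram `D` is alternating: every crossing is positive or negative, and over and under passages alternate along the link. -/
structure Alt (D : Dg G) : Prop where
  ns : ∀ i, D.st i ≠ .smooth
  alt : ∀ i, D.ovr (G.nxt i) = !D.ovr i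

/-- the sign of a crossing -/
noncomputable def ep (D : Dg G) (p : P) : ℝ := if D.st p = .pos then 1 else -1

/-- over: `1`, under: `-1` -/
noncomputable def oo (D : Dg G) (p : P) : ℝ := if D.ovr p = true then 1 else -1

theorem oo_sq (D : Dg G) (p : P) : oo D p = 1 ∨ oo D p = -1 := by
  unfold oo
  split_ifs
  · exact Or.inl rfl
  · exact Or.inr rfl

theorem ep_sq (D : Dg G) (p : P) : ep D p = 1 ∨ ep D p = -1 := by
  unfold ep
  split_ifs
  · exact Or.inl rfl
  · exact Or.inr rfl

variable {D : Dg G}

theorem oo_neg {p q : P} (h : D.ovr p = !D.ovr q) : oo D p = -oo D q := by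
  unfold oo
  rw [h]
  cases D.ovr q <;> simp

theorem Alt.nxt (h : Alt D) (i : P) : oo D (G.nxt i) = -oo D i := oo_neg (h.alt i)

theorem Alt.symm (h : Alt D) (i : P) : oo D (G.nxt.symm i) = -oo D i := by
  have := h.nxt (G.nxt.symm i)
  rw [Equiv.apply_symm_apply] at this
  linarith

theorem Alt.op (h : Alt D) (ho : ∀ i, G.op i ≠ i) (i : P) : oo D (G.op i) = -oo D i := by
  apply oo_neg
  have h1 := h.ns i
  unfold Dg.ovr
  rw [D.st_op i, G.lf_op i (ho i)]
  cases hs : D.st i with
  | pos => rfl
  | neg => rfl
  | smooth => exact absurd hs h1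

theorem Alt.sg (h : Alt D) (ho : ∀ i, G.op i ≠ i) (e : P) : oo D (Pool.Agent.Helper57.PD.sg G e) = oo D e := by
  rw [sg_apply, h.op ho, h.nxt, neg_neg]

theorem Alt.ep_eq (h : Alt D) {p : P} (hp : G.lf p = true) : ep D p = -oo D p := by
  have h1 := h.ns p
  unfold ep oo Dg.ovr
  cases hs : D.st p with
  | pos => simp [hp]
  | neg => simp [hp]
  | smooth => exact absurd hs h1

/-- the sign of a face -/
noncomputable def eta (h : Alt D) (ho : ∀ i, G.op i ≠ i) : Face G → ℝ :=
  Quot.lift (fun d : P × Bool => if d.2 = true then oo D d.1 else -oo D d.1) (by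
    rintro ⟨i, b⟩ d rfl
    cases b with
    | true =>
      cases hl : G.lf (G.nxt i) with
      | true =>
        simp only [face, hl, if_true, if_false, Bool.false_eq_true]
        rw [h.symm, h.op ho, h.nxt]
        ring
      | false =>
        simp only [face, hl, if_true, if_false, Bool.false_eq_true]
        rw [h.op ho, h.nxt]
        ring
    | false =>
      cases hl : G.lf i with
      | true =>
        simp only [face, hl, if_true, if_false, Bool.false_eq_true]
        rw [h.op ho]
      | false =>
        simp only [face, hl, if_true, if_false, Bool.false_eq_true]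
        rw [h.symm, h.op ho]
        ring)

theorem eta_L (h : Alt D) (ho : ∀ i, G.op i ≠ i) (i : P) : eta h ho (Lf G i) = oo D i := rfl

theorem eta_R (h : Alt D) (ho : ∀ i, G.op i ≠ i) (i : P) : eta h ho (Rf G i) = -oo D i := rfl

theorem eta_N (h : Alt D) (ho : ∀ i, G.op i ≠ i) {p : P} (hp : G.lf p = true) : eta h ho (Rf G p) = ep D p := by
  rw [eta_R, h.ep_eq hp]

theorem eta_S (h : Alt D) (ho : ∀ i, G.op i ≠ i) {p : P} (hp : G.lf p = true) : eta h ho (Lf G (G.nxt.symm p)) = ep D p := by
  rw [eta_L, h.symm, h.ep_eq hp]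

end Pool.Agent.Helper43.AF
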