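import Pool.Agent.Helper43.AF.Energy

/-!
# Alternating diagrams: the chains
-/

set_option autoImplicit false

namespace Pool.Agent.Helper43.AF

open Pool.Agent.Helper85.Exp Pool.Agent.Helper2.PD Pool.Agent.Helper57.PD Pool.Agent.Helper85.GD Finset Classical

variable {P : Type} {G : Sh P} {D : Dg G} [Fintype P]

/-- the variation of the faces along the left and along the right boundary of the face `f` -/
noncomputable def vr (c : Face G → ℂ) (f : Face G) : ℝ :=
  (∑ e ∈ univ.filter (fun e => Rf G e = f), ‖c (Lf G (sg G e)) - c (Lf G e)‖) +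
    ∑ e ∈ univ.filter (fun e => Lf G e = f), ‖c (Rf G (sg G e)) - c (Rf G e)‖

theorem vr_nonneg (c : Face G → ℂ) (f : Face G) : 0 ≤ vr c f :=
  add_nonneg (Finset.sum_nonneg fun _ _ => norm_nonneg _) (Finset.sum_nonneg fun _ _ => norm_nonneg _)

/-- a face with one crossing `p` behind it and one crossing `p'` in front of it -/
theorem geo (ho : ∀ i, G.op i ≠ i) (c : Face G → ℂ) {f : Face G} (hk : kf G f = 1) {p p' : P} (hp : G.lf p = true) (hpf : Rf G p = f)
    (hp' : G.lf p' = true) (hf : Lf G (G.nxt.symm p') = f) :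
    ‖(c (Lf G p') - c (Lf G p)) + (c (Rf G (G.op p')) - c (Rf G (G.op p)))‖ ≤ vr c f := by
  obtain ⟨p0, -, h0⟩ := kf_one_S ho hk
  have hlf : ∀ p, G.lf (G.op p) = !G.lf p := fun p => G.lf_op p (ho p)
  have hreg := Pool.Agent.Helper49.PD.regW_of (G := G) ho (C := fun _ => False) hp (fun _ _ => not_false) (fun x y hx hy hx2 hy2 => by
    rw [h0 x hx (hx2.trans hpf), h0 y hy (hy2.trans hpf)])
  obtain ⟨a, b, h1, h2, h3, h4, -, -, h7⟩ := hreg
  have hsf : Pool.Agent.Helper49.PD.sf G.nxt G.op = ⇑(sg G) := by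
    funext e
    rfl
  rw [hsf] at h1 h2 h3 h4 h7
  have lface : ∀ i ≤ a, Rf G ((⇑(sg G))^[i] p) = Rf G p := by
    rw [← hsf] at h1 ⊢
    exact Pool.Agent.Helper49.PD.left_face (R := Rf G) (fun x hx => corner_E hx (ho x)) h1
  have rface : ∀ i ≤ b, Lf G ((⇑(sg G))^[i] (G.op p)) = Lf G (G.op p) := by
    rw [← hsf] at h3 ⊢
    exact Pool.Agent.Helper49.PD.right_face (L := Lf G) G.op_op hlf (fun x hx => corner_W hx (ho x)) h3
  have hLp : Lf G (G.op p) = f := by rw [← corner_N hp, hpf]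
  have hq : G.nxt ((⇑(sg G))^[b] (G.op p)) = p' := by
    have e1 := h0 _ h4 (by rw [Equiv.symm_apply_apply, rface b le_rfl, hLp])
    rw [e1, h0 p' hp' hf]
  have ha : (⇑(sg G))^[a] p = G.nxt.symm (G.op p') := by
    rw [← hq, ← h7, Equiv.symm_apply_apply]
  have hb : (⇑(sg G))^[b] (G.op p) = G.nxt.symm p' := by
    rw [← hq, Equiv.symm_apply_apply]
  have v1 := walk_var (⇑(sg G)) (fun e => c (Lf G e)) p a (univ.filter fun e => Rf G e = f)
    (fun i hi => mem_filter.2 ⟨mem_univ _, (lface i hi.le).trans hpf⟩)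
    (walk_inj (q := fun x => G.lf (G.nxt x) = false) (fun i hi => by rw [h1 i hi]; simp) h2)
  have v2 := walk_var (⇑(sg G)) (fun e => c (Rf G e)) (G.op p) b (univ.filter fun e => Lf G e = f)
    (fun i hi => mem_filter.2 ⟨mem_univ _, (rface i hi.le).trans hLp⟩)
    (walk_inj (q := fun x => G.lf (G.nxt x) = true) (fun i hi => by rw [h3 i hi]; simp) h4)
  rw [ha, ← corner_W hp' (ho p')] at v1
  rw [hb, corner_E hp' (ho p')] at v2
  exact (norm_add_le _ _).trans (add_le_add v1 v2)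

/-- the face in which the chain starts at the crossing `x` -/
noncomputable def fc (D : Dg G) (x : P) : Face G := if D.st x = .pos then Lf G (G.nxt.symm x) else Rf G x

/-- the face on the other side -/
noncomputable def bk (D : Dg G) (x : P) : Face G := if D.st x = .pos then Rf G x else Lf G (G.nxt.symm x)

/-- the bound of one face -/
noncomputable def Fb (D : Dg G) (ζ κ : ℂ) (c : Face G → ℂ) (f : Face G) : ℝ :=
  ‖ζ‖ * (∑ y ∈ (univ.filter (fun p : P => G.lf p = true)).filter (fun y => bk D y = f), ‖gg c y‖) + ‖1 - ζ‖ * ‖κ‖ * vr c f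

theorem Fb_nonneg (D : Dg G) (ζ κ : ℂ) (c : Face G → ℂ) (f : Face G) : 0 ≤ Fb D ζ κ c f := by
  have e1 : 0 ≤ ∑ y ∈ (univ.filter (fun p : P => G.lf p = true)).filter (fun y => bk D y = f), ‖gg c y‖ :=
    Finset.sum_nonneg fun _ _ => norm_nonneg _
  have e2 := vr_nonneg c f
  unfold Fb
  positivity

theorem st_of_ep {p q : P} (h : ep D p = ep D q) : D.st p = .pos ↔ D.st q = .pos := by
  unfold ep at h
  by_cases h1 : D.st p = .pos
  · by_cases h2 : D.st q = .pos
    · exact ⟨fun _ => h2, fun _ => h1⟩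
    · rw [if_pos h1, if_neg h2] at h
      norm_num at h
  · by_cases h2 : D.st q = .pos
    · rw [if_neg h1, if_pos h2] at h
      norm_num at h
    · exact ⟨fun h3 => absurd h3 h1, fun h3 => absurd h3 h2⟩

/-- **Chains.** -/
theorem chainE (h : Alt D) (ho : ∀ i, G.op i ≠ i) {ζ κ : ℂ} (c : Face G → ℂ)
    (hrow : ∀ p, G.lf p = true → row D ζ κ c p) {x : P} (hx : G.lf x = true) (hk : kf G (fc D x) = 1) :
    ‖gg c x‖ ≤ Fb D ζ κ c (fc D x) := by
  obtain ⟨f, hf⟩ : ∃ f, f = fc D x := ⟨_, rfl⟩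
  rw [← hf] at hk ⊢
  obtain ⟨p, ⟨hp, hpf⟩, -⟩ := kf_one_N hk
  obtain ⟨p', ⟨hp', hpf'⟩, -⟩ := kf_one_S ho hk
  have hgeo := geo ho c hk hp hpf hp' hpf'
  have hepp : ep D p = ep D p' := by
    rw [← eta_N h ho hp, ← eta_S h ho hp', hpf, hpf']
  have key : ∀ y : P, G.lf y = true → bk D y = f → ‖gg c x‖ ≤ ‖ζ‖ * ‖gg c y‖ + ‖1 - ζ‖ * ‖κ‖ * vr c f → ‖gg c x‖ ≤ Fb D ζ κ c f := by
    intro y hy hyf hle
    refine hle.trans ?_
    unfold Fb
    have h1 := Finset.single_le_sum (f := fun p => ‖gg c p‖) (s := (univ.filter (fun p : P => G.lf p = true)).filter (fun y => bk D y = f))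
      (fun _ _ => norm_nonneg _) (mem_filter.2 ⟨mem_filter.2 ⟨mem_univ _, hy⟩, hyf⟩)
    have h2 := mul_le_mul_of_nonneg_left h1 (norm_nonneg ζ)
    linarith
  by_cases hs : D.st x = .pos
  · -- `x = p'`
    have hfx : Lf G (G.nxt.symm x) = f := by
      rw [hf]
      unfold fc
      rw [if_pos hs]
    have hxp : x = p' := by
      obtain ⟨q, -, hq⟩ := kf_one_S ho hk
      rw [hq x hx hfx, hq p' hp' hpf']
    subst hxp
    have hsp : D.st p = .pos := (st_of_ep hepp).2 hs
    refine key p hp (by unfold bk; rw [if_pos hsp, hpf]) ?_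
    have r1 := (hrow p hp).1 hsp
    have r2 := (hrow x hx).1 hs
    rw [hfx] at r2
    rw [hpf] at r1
    have e : gg c x = ζ * gg c p + (1 - ζ) * κ * ((c (Lf G x) - c (Lf G p)) + (c (Rf G (G.op x)) - c (Rf G (G.op p)))) := by
      unfold gg
      rw [hfx, hpf]
      linear_combination r2 - r1
    rw [e]
    refine (norm_add_le _ _).trans (add_le_add (le_of_eq (norm_mul _ _)) ?_)
    rw [norm_mul, norm_mul]
    exact mul_le_mul_of_nonneg_left hgeo (by positivity)
  · -- `x = p`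
    have hfx : Rf G x = f := by
      rw [hf]
      unfold fc
      rw [if_neg hs]
    have hxp : x = p := by
      obtain ⟨q, -, hq⟩ := kf_one_N hk
      rw [hq x hx hfx, hq p hp hpf]
    subst hxp
    have hsp : D.st p' ≠ .pos := fun h' => hs ((st_of_ep hepp).2 h')
    refine key p' hp' (by unfold bk; rw [if_neg hsp, hpf']) ?_
    have r1 := (hrow p' hp').2 hsp
    have r2 := (hrow x hx).2 hs
    rw [hfx] at r2
    rw [hpf'] at r1
    have e : gg c x = ζ * gg c p' + (1 - ζ) * κ * ((c (Lf G p') - c (Lf G x)) + (c (Rf G (G.op p')) - c (Rf G (G.op x)))) := by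
      unfold gg
      rw [hfx, hpf']
      linear_combination r1 - r2
    rw [e]
    refine (norm_add_le _ _).trans (add_le_add (le_of_eq (norm_mul _ _)) ?_)
    rw [norm_mul, norm_mul]
    exact mul_le_mul_of_nonneg_left hgeo (by positivity)

/-- the sum over the crossings of chains -/
theorem chain_sumE (h : Alt D) (ho : ∀ i, G.op i ≠ i) {ζ κ : ℂ} (c : Face G → ℂ)
    (hrow : ∀ p, G.lf p = true → row D ζ κ c p) :
    ∑ p ∈ univ.filter (fun p : P => G.lf p = true ∧ kf G (fc D p) = 1), ‖gg c p‖ ≤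
      ‖ζ‖ * VV c + ‖1 - ζ‖ * ‖κ‖ * (VV c + VV c) := by
  have : Fintype (Face G) := Fintype.ofFinite _
  have hF : ∑ f, Fb D ζ κ c f = ‖ζ‖ * VV c + ‖1 - ζ‖ * ‖κ‖ * (VV c + VV c) := by
    simp only [Fb, vr, Finset.sum_add_distrib, ← Finset.mul_sum]
    rw [Finset.sum_fiberwise (univ.filter (fun p : P => G.lf p = true)) (bk D) fun p => ‖gg c p‖,
      Finset.sum_fiberwise univ (Rf G) fun e => ‖c (Lf G (sg G e)) - c (Lf G e)‖,
      Finset.sum_fiberwise univ (Lf G) fun e => ‖c (Rf G (sg G e)) - c (Rf G e)‖, sum_dX ho, sum_dY ho]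
    rfl
  rw [← hF]
  set A := univ.filter (fun p : P => G.lf p = true ∧ kf G (fc D p) = 1) with hA
  have hinj : Set.InjOn (fc D) (A : Set P) := by
    intro x hx y hy hxy
    rw [Finset.mem_coe, hA, mem_filter] at hx hy
    have hex : ∀ z, G.lf z = true → eta h ho (fc D z) = ep D z := by
      intro z hz
      unfold fc
      split_ifs with hs
      · exact eta_S h ho hz
      · exact eta_N h ho hz
    have he : ep D x = ep D y := by
      rw [← hex x hx.2.1, ← hex y hy.2.1, hxy]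
    by_cases hs : D.st x = .pos
    · have hs' := (st_of_ep he).1 hs
      obtain ⟨q, -, hq⟩ := kf_one_S ho hx.2.2
      have e1 : Lf G (G.nxt.symm x) = fc D x := by unfold fc; rw [if_pos hs]
      have e2 : Lf G (G.nxt.symm y) = fc D x := by rw [hxy]; unfold fc; rw [if_pos hs']
      rw [hq x hx.2.1 e1, hq y hy.2.1 e2]
    · have hs' : D.st y ≠ .pos := fun h' => hs ((st_of_ep he).2 h')
      obtain ⟨q, -, hq⟩ := kf_one_N hx.2.2
      have e1 : Rf G x = fc D x := by unfold fc; rw [if_neg hs]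
      have e2 : Rf G y = fc D x := by rw [hxy]; unfold fc; rw [if_neg hs']
      rw [hq x hx.2.1 e1, hq y hy.2.1 e2]
  calc ∑ p ∈ A, ‖gg c p‖ ≤ ∑ p ∈ A, Fb D ζ κ c (fc D p) := Finset.sum_le_sum fun p hp => by
        rw [hA, mem_filter] at hp
        exact chainE h ho c hrow hp.2.1 hp.2.2
    _ = ∑ f ∈ A.image (fc D), Fb D ζ κ c f := (Finset.sum_image hinj).symm
    _ ≤ ∑ f, Fb D ζ κ c f := Finset.sum_le_sum_of_subset_of_nonneg (subset_univ _) fun f _ _ => Fb_nonneg D ζ κ c f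

/-- **The differences vanish for small `κ`.** -/
theorem VV_zeroE {s : ℕ} (hG : Good s G) (h : Alt D) {ζ κ : ℂ} (hζ : ‖ζ‖ ≤ 1 / 2) (hs : 1 ≤ s) (hκ : 1000 * s * ‖κ‖ ≤ 1)
    (c : Face G → ℂ) (hrow : ∀ p, G.lf p = true → row D ζ κ c p) : VV c = 0 := by
  set V := VV c with hV
  have hV0 : 0 ≤ V := VV_nonneg c
  have h1 := chain_sumE h hG.ho c hrow
  have h2 := energyE h hG.ho hζ c hrow
  set B := univ.filter (fun p : P => G.lf p = true ∧ ¬ kf G (fc D p) = 1) with hB
  have hBc : B.card ≤ 8 * s := by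
    have := Pool.Agent.Helper2.PD.special_card hG.ho hG.hp (sg G) (sg_apply G) hG.hs ∅ B (fun p hp => by
      rw [hB, mem_filter] at hp
      refine ⟨hp.2.1, ?_⟩
      by_cases hs : D.st p = .pos
      · have := hp.2.2
        unfold fc at this
        rw [if_pos hs] at this
        exact Or.inr (Or.inl this)
      · have := hp.2.2
        unfold fc at this
        rw [if_neg hs] at this
        exact Or.inl (Or.inl this))
    simpa using this
  have h3 : V = ∑ p ∈ univ.filter (fun p : P => G.lf p = true ∧ kf G (fc D p) = 1), ‖gg c p‖ +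
      ∑ p ∈ B, ‖gg c p‖ := by
    rw [hV, VV, ← Finset.sum_filter_add_sum_filter_not _ fun p : P => kf G (fc D p) = 1, Finset.filter_filter,
      Finset.filter_filter]
  have h4 : (∑ p ∈ B, ‖gg c p‖) ^ 2 ≤ 8 * s * (12 * ‖κ‖ * V ^ 2) := by
    calc (∑ p ∈ B, ‖gg c p‖) ^ 2 ≤ B.card * ∑ p ∈ B, ‖gg c p‖ ^ 2 := sq_sum_le_card_mul_sum_sq
      _ ≤ (8 * s : ℕ) * ∑ p ∈ univ.filter (fun p : P => G.lf p = true), ‖gg c p‖ ^ 2 := by
          refine mul_le_mul (by exact_mod_cast hBc) ?_ (Finset.sum_nonneg fun _ _ => sq_nonneg _) (by positivity)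
          refine Finset.sum_le_sum_of_subset_of_nonneg ?_ fun _ _ _ => sq_nonneg _
          intro p hp
          rw [hB, mem_filter] at hp
          exact mem_filter.2 ⟨mem_univ _, hp.2.1⟩
      _ ≤ _ := by
          push_cast
          exact mul_le_mul_of_nonneg_left h2 (by positivity)
  have hs1 : (1 : ℝ) ≤ s := by exact_mod_cast hs
  have hκ1 : ‖κ‖ ≤ 1 / 1000 := by
    have := norm_nonneg κ
    nlinarith
  have h5 : ∑ p ∈ B, ‖gg c p‖ ≤ 2 / 5 * V := by
    refine abs_le_of_sq_le_sq' (a := ∑ p ∈ B, ‖gg c p‖) ?_ (by positivity) |>.2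
    refine h4.trans ?_
    have : 8 * (s : ℝ) * (12 * ‖κ‖ * V ^ 2) = (96 / 1000) * (1000 * s * ‖κ‖) * V ^ 2 := by ring
    rw [this]
    nlinarith [sq_nonneg V]
  have h6 : ‖1 - ζ‖ ≤ 3 / 2 := by
    have := norm_sub_le 1 ζ
    rw [norm_one] at this
    linarith
  have h7 : ‖ζ‖ * V + ‖1 - ζ‖ * ‖κ‖ * (V + V) ≤ 1 / 2 * V + 3 / 2 * (1 / 1000) * (V + V) := by
    refine add_le_add (mul_le_mul_of_nonneg_right hζ hV0) (mul_le_mul_of_nonneg_right ?_ (by linarith))
    exact mul_le_mul h6 hκ1 (norm_nonneg _) (by norm_num)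
  linarith

end Pool.Agent.Helper43.AF
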