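import Pool.Agent.Helper43.AF.Alt

/-!
# Alternating diagrams: the energy
-/

set_option autoImplicit false

namespace Pool.Agent.Helper43.AF

open Pool.Agent.Helper85.Exp Pool.Agent.Helper2.PD Pool.Agent.Helper57.PD Pool.Agent.Helper85.GD Finset

variable {P : Type} {G : Sh P} {D : Dg G}

/-- the row of a crossing with its sign -/
def row (D : Dg G) (ζ κ : ℂ) (c : Face G → ℂ) (p : P) : Prop :=
  (D.st p = .pos → c (Rf G p) - ζ * c (Lf G (G.nxt.symm p)) - (1 - ζ) * κ * (c (Lf G p) + c (Rf G (G.op p))) = 0) ∧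
  (D.st p ≠ .pos → c (Lf G (G.nxt.symm p)) - ζ * c (Rf G p) - (1 - ζ) * κ * (c (Lf G p) + c (Rf G (G.op p))) = 0)

theorem ep_pos {p : P} (h : D.st p = .pos) : ep D p = 1 := if_pos h

theorem ep_neg {p : P} (h : D.st p ≠ .pos) : ep D p = -1 := if_neg h

variable [Fintype P]

/-- the bilinear form -/
noncomputable def QE (D : Dg G) (c : Face G → ℂ) : ℂ :=
  ∑ p ∈ univ.filter (fun p : P => G.lf p = true), (ep D p : ℂ) * (star (c (Lf G p) + c (Rf G (G.op p))) * gg c p)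

theorem norm_oo_mul (D : Dg G) (e : P) (z : ℂ) : ‖(oo D e : ℂ) * z‖ = ‖z‖ := by
  rcases oo_sq D e with h | h <;> rw [h] <;> simp

theorem QE_le (h : Alt D) (ho : ∀ i, G.op i ≠ i) (c : Face G → ℂ) : ‖QE D c‖ ≤ 2 * VV c ^ 2 := by
  have h1 : ∑ e, star (-((oo D e : ℂ) * c (Lf G e))) * (c (Rf G (sg G e)) - c (Rf G e)) =
      ∑ p ∈ univ.filter (fun p : P => G.lf p = true), (ep D p : ℂ) * (star (c (Lf G p)) * gg c p) := by
    rw [Finset.sum_filter, ← Equiv.sum_comp (sg G) fun p => if G.lf p = true then (ep D p : ℂ) * (star (c (Lf G p)) * gg c p) else 0]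
    refine Finset.sum_congr rfl fun e _ => ?_
    cases hl : G.lf (G.nxt e) with
    | true =>
      have h2 : G.lf (sg G e) = false := by rw [sg_apply, G.lf_op _ (ho _), hl]; rfl
      rw [(stepR ho c hl).2, h2, if_neg (by simp), mul_zero]
    | false =>
      have h2 : G.lf (sg G e) = true := by rw [sg_apply, G.lf_op _ (ho _), hl]; rfl
      rw [(stepL ho c hl).2, if_pos h2, h.ep_eq h2, h.sg ho, ← sg_apply, sub_eq_zero.1 (stepL ho c hl).1]
      push_cast
      rw [star_neg, StarMul.star_mul, Complex.star_def, Complex.conj_ofReal]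
      ring
  have h2 : ∑ e, star ((oo D e : ℂ) * c (Rf G e)) * (c (Lf G (sg G e)) - c (Lf G e)) =
      ∑ p ∈ univ.filter (fun p : P => G.lf p = true), (ep D p : ℂ) * (star (c (Rf G (G.op p))) * gg c p) := by
    rw [Finset.sum_filter, ← Equiv.sum_comp G.nxt fun p => if G.lf p = true then (ep D p : ℂ) * (star (c (Rf G (G.op p))) * gg c p) else 0]
    refine Finset.sum_congr rfl fun e _ => ?_
    cases hl : G.lf (G.nxt e) with
    | true =>
      rw [(stepR ho c hl).1, if_pos rfl, h.ep_eq hl, h.nxt, ← sg_apply, sub_eq_zero.1 (stepR ho c hl).2, neg_neg]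
      rw [StarMul.star_mul, Complex.star_def, Complex.conj_ofReal]
      ring
    | false => rw [(stepL ho c hl).1, if_neg (by simp), mul_zero]
  have h3 : QE D c = ∑ e, star (-((oo D e : ℂ) * c (Lf G e))) * (c (Rf G (sg G e)) - c (Rf G e)) +
      ∑ e, star ((oo D e : ℂ) * c (Rf G e)) * (c (Lf G (sg G e)) - c (Lf G e)) := by
    rw [h1, h2, ← Finset.sum_add_distrib, QE]
    exact Finset.sum_congr rfl fun p _ => by rw [star_add, add_mul, mul_add]
  rw [h3]
  have h4 := cycle_parts (sg G) (fun e => -((oo D e : ℂ) * c (Lf G e))) (fun e => c (Rf G e))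
  have h5 := cycle_parts (sg G) (fun e => (oo D e : ℂ) * c (Rf G e)) (fun e => c (Lf G e))
  have e1 : ∀ e, ‖-((oo D (sg G e) : ℂ) * c (Lf G (sg G e))) - -((oo D e : ℂ) * c (Lf G e))‖ = ‖c (Lf G (sg G e)) - c (Lf G e)‖ := by
    intro e
    rw [h.sg ho, ← norm_oo_mul D e (c (Lf G (sg G e)) - c (Lf G e)), ← norm_neg]
    congr 1
    ring
  have e2 : ∀ e, ‖(oo D (sg G e) : ℂ) * c (Rf G (sg G e)) - (oo D e : ℂ) * c (Rf G e)‖ = ‖c (Rf G (sg G e)) - c (Rf G e)‖ := by
    intro e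
    rw [h.sg ho, ← norm_oo_mul D e (c (Rf G (sg G e)) - c (Rf G e))]
    congr 1
    ring
  simp only [e1, e2, sum_dX ho, sum_dY ho] at h4 h5
  calc _ ≤ _ := norm_add_le _ _
    _ ≤ VV c * VV c + VV c * VV c := add_le_add h4 h5
    _ = 2 * VV c ^ 2 := by ring

/-- the sum of `ε (‖N‖² - ‖S‖²)` vanishes -/
theorem sum_NSE (h : Alt D) (ho : ∀ i, G.op i ≠ i) (c : Face G → ℂ) :
    ∑ p ∈ univ.filter (fun p : P => G.lf p = true), ep D p * (‖c (Rf G p)‖ ^ 2 - ‖c (Lf G (G.nxt.symm p))‖ ^ 2) = 0 := by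
  let q : P → ℝ := fun e => oo D e * (‖c (Lf G e)‖ ^ 2 - ‖c (Rf G e)‖ ^ 2)
  have h1 : ∀ p, G.lf p = true → (q p + q (G.op p)) - (q (G.nxt.symm p) + q (G.nxt.symm (G.op p))) =
      2 * (ep D p * (‖c (Rf G p)‖ ^ 2 - ‖c (Lf G (G.nxt.symm p))‖ ^ 2)) := by
    intro p hp
    simp only [q]
    rw [corner_E hp (ho p), ← corner_S hp, ← corner_W hp (ho p), ← corner_N hp, h.ep_eq hp, h.symm, h.symm, h.op ho]
    ring
  have tot : ∑ p ∈ univ.filter (fun p : P => G.lf p = true),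
      ((q p + q (G.op p)) - (q (G.nxt.symm p) + q (G.nxt.symm (G.op p)))) = 0 := by
    rw [Finset.sum_sub_distrib, ← Pool.Agent.Helper8.GD.sum_split ho q,
      ← Pool.Agent.Helper8.GD.sum_split ho fun i => q (G.nxt.symm i), sub_eq_zero]
    exact (Equiv.sum_comp G.nxt.symm q).symm
  rw [Finset.sum_congr rfl fun p hp => h1 p (mem_filter.1 hp).2, ← Finset.mul_sum] at tot
  exact (mul_eq_zero.1 tot).resolve_left two_ne_zero

/-- the energy -/
theorem energyE (h : Alt D) (ho : ∀ i, G.op i ≠ i) {ζ κ : ℂ} (hζ : ‖ζ‖ ≤ 1 / 2) (c : Face G → ℂ)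
    (hrow : ∀ p, G.lf p = true → row D ζ κ c p) :
    ∑ p ∈ univ.filter (fun p : P => G.lf p = true), ‖gg c p‖ ^ 2 ≤ 12 * ‖κ‖ * VV c ^ 2 := by
  have h1 : ∑ p ∈ univ.filter (fun p : P => G.lf p = true), (ep D p * (‖c (Rf G p)‖ ^ 2 - ‖c (Lf G (G.nxt.symm p))‖ ^ 2) +
      1 / 3 * ‖gg c p‖ ^ 2) ≤ ∑ p ∈ univ.filter (fun p : P => G.lf p = true),
        2 * ((ep D p : ℂ) * (star (κ * (c (Lf G p) + c (Rf G (G.op p)))) * gg c p)).re := by
    refine Finset.sum_le_sum fun p hp => ?_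
    have hr := hrow p (mem_filter.1 hp).2
    by_cases hs : D.st p = .pos
    · rw [ep_pos hs, one_mul, Complex.ofReal_one, one_mul]
      refine cross_far hζ ?_
      rw [← mul_assoc]
      exact hr.1 hs
    · rw [ep_neg hs]
      have h2 := cross_far (n := c (Lf G (G.nxt.symm p))) (s := c (Rf G p)) (y := κ * (c (Lf G p) + c (Rf G (G.op p)))) hζ (by
        rw [← mul_assoc]
        exact hr.2 hs)
      have h3 : ‖gg c p‖ = ‖c (Lf G (G.nxt.symm p)) - c (Rf G p)‖ := by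
        unfold gg
        rw [norm_sub_rev]
      rw [h3]
      have h4 : ((-1 : ℝ) : ℂ) * (star (κ * (c (Lf G p) + c (Rf G (G.op p)))) * gg c p) =
          star (κ * (c (Lf G p) + c (Rf G (G.op p)))) * (c (Lf G (G.nxt.symm p)) - c (Rf G p)) := by
        unfold gg
        push_cast
        ring
      rw [h4]
      linarith
  rw [Finset.sum_add_distrib, sum_NSE h ho, zero_add, ← Finset.mul_sum, ← Finset.mul_sum, ← Complex.re_sum] at h1
  have h2 : ∑ p ∈ univ.filter (fun p : P => G.lf p = true), (ep D p : ℂ) * (star (κ * (c (Lf G p) + c (Rf G (G.op p)))) * gg c p) =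
      star κ * QE D c := by
    rw [QE, Finset.mul_sum]
    refine Finset.sum_congr rfl fun p _ => ?_
    rw [StarMul.star_mul]
    ring
  rw [h2] at h1
  have h3 : (star κ * QE D c).re ≤ ‖κ‖ * (2 * VV c ^ 2) := by
    refine (Complex.re_le_norm _).trans ?_
    rw [norm_mul, norm_star]
    exact mul_le_mul_of_nonneg_left (QE_le h ho c) (norm_nonneg _)
  linarith

end Pool.Agent.Helper43.AF
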