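import Pool.Agent.Helper43.AF.Chain
import Pool.Agent.Helper60.PD.Full
import Pool.Agent.Helper43.PD.Plane

/-!
# Alternating diagrams: the zeros of the Conway polynomial are small
-/

set_option autoImplicit false

namespace Pool.Agent.Helper43.AF

open Polynomial Pool.Agent.Helper85.Exp Pool.Agent.Helper60.EV2 Pool.Agent.Helper27.EV2 Pool.Agent.Helper2.PD Pool.Agent.Helper57.PD
  Pool.Agent.Helper16.PD Pool.Agent.Helper85.GD Finset Classical

variable {P : Type} {G : Sh P} {D : Dg G} [Fintype P]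

/-- If the differences vanish then the rows do not depend on the signs. -/
theorem row_pos {ζ κ : ℂ} {c : Face G → ℂ} (hV : VV c = 0) (hrow : ∀ p, G.lf p = true → row D ζ κ c p) (p : P) (hp : G.lf p = true) :
    c (Rf G p) - ζ * c (Lf G (G.nxt.symm p)) - (1 - ζ) * κ * (c (Lf G p) + c (Rf G (G.op p))) = 0 := by
  have h3 := (Finset.sum_eq_zero_iff_of_nonneg (fun p _ => norm_nonneg _)).1 hV p (mem_filter.2 ⟨mem_univ _, hp⟩)
  have h4 : c (Rf G p) - c (Lf G (G.nxt.symm p)) = 0 := norm_eq_zero.1 h3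
  by_cases hs : D.st p = .pos
  · exact (hrow p hp).1 hs
  · have h5 := (hrow p hp).2 hs
    linear_combination h5 + (1 + ζ) * h4

/-- **FAR**, for face functions. -/
theorem far_faceE {s : ℕ} (hG : Good s G) (h : Alt D) {ζ κ : ℂ} (hζ : ‖ζ‖ ≤ 1 / 2) (hκ0 : κ ≠ 0) (hκ : 1000 * s * ‖κ‖ ≤ 1)
    (c : Face G → ℂ) (hrow : ∀ p, G.lf p = true → row D ζ κ c p)
    {e₀ : P} (h1 : c (Lf G e₀) = 0) (h2 : c (Rf G e₀) = 0) (f : Face G) : c f = 0 := by
  have hV := VV_zeroE hG h hζ ((circ_pos e₀).trans hG.hs) hκ c hrow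
  refine zero_of_VV hG.ho hG.hc ?_ hκ0 c (row_pos hV hrow) hV h1 h2 f
  rintro rfl
  rw [norm_one] at hζ
  norm_num at hζ

/-- a vector on the crossings as a function on the faces -/
noncomputable def ext (A : Fa G (Face G)) (b : P) (ε : Cr G ≃ A.Fr b) (v : Cr G → ℂ) (f : Face G) : ℂ :=
  if h : f ≠ A.L (G.nxt.symm b) ∧ f ≠ A.R (G.nxt.symm b) then v (ε.symm ⟨f, h⟩) else 0

theorem sum_ext (A : Fa G (Face G)) (b : P) (ε : Cr G ≃ A.Fr b) (v : Cr G → ℂ) (f : Face G) (t : ℂ) :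
    ∑ y : Cr G, (if f = (ε y).1 then t else 0) * v y = t * ext A b ε v f := by
  unfold ext
  split_ifs with h
  · rw [Finset.sum_eq_single (ε.symm ⟨f, h⟩)]
    · rw [Equiv.apply_symm_apply, if_pos rfl]
    · intro y _ hy
      rw [if_neg, zero_mul]
      intro hf
      apply hy
      rw [Equiv.eq_symm_apply]
      exact Subtype.ext hf.symm
    · intro h'
      exact absurd (mem_univ _) h'
  · rw [mul_zero]
    refine Finset.sum_eq_zero fun y _ => ?_
    rw [if_neg, zero_mul]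
    rintro rfl
    exact h (ε y).2

/-- **FAR**: the Conway polynomial of an alternating plane diagram with at most `s` Seifert circles has no zero `x` with `1003 s ≤ ‖x‖`. -/
theorem nab_farE {s : ℕ} (hG : Good s G) (hne : Nonempty P) {nab : Dg G → ℤ[X]} (hn : Cs nab) (h : Alt D)
    {x : ℂ} (hx : 1003 * (s : ℝ) ≤ ‖x‖) : aeval x (nab D) ≠ 0 := by
  obtain ⟨b⟩ := hne
  obtain ⟨k, hk⟩ := exists_kappa hG.hc hG.ho hG.hp
  obtain ⟨ε⟩ := Pool.Agent.Helper60.PD.exists_eq hG.hc hG.ho hG.hp b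
  let _ : Fintype (Face G) := Fintype.ofFinite _
  obtain ⟨c₀, hc₀, hdet⟩ := Pool.Agent.Helper60.PD.nab_dehn (faceFa G hG.ho) hG.hc k hk b ε
  obtain ⟨z, hz0, hz1, rfl⟩ := exists_z x
  have hs : (1 : ℝ) ≤ s := by exact_mod_cast (circ_pos b).trans hG.hs
  have hzp : 0 < ‖z‖ := norm_pos_iff.2 hz0
  have h1 : 1002 * (s : ℝ) ≤ ‖z‖⁻¹ := by
    have := norm_sub_le z⁻¹ z
    rw [norm_inv] at this
    linarith
  have h2 : 1002 * s * ‖z‖ ≤ 1 := by
    calc 1002 * s * ‖z‖ ≤ ‖z‖⁻¹ * ‖z‖ := mul_le_mul_of_nonneg_right h1 hzp.le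
      _ = 1 := inv_mul_cancel₀ hzp.ne'
  have h3 : ‖z‖ ≤ 1 / 1002 := by nlinarith
  have h4 : 1 - ‖z‖ ^ 2 ≤ ‖1 + z ^ 2‖ := by
    have := norm_sub_norm_le 1 (-z ^ 2)
    rw [norm_one, norm_neg, norm_pow, sub_neg_eq_add] at this
    exact this
  have h5 : 1 + z ^ 2 ≠ 0 := by
    rw [← norm_pos_iff]
    nlinarith
  intro h0
  have h6 := hdet nab hn ℂ (Units.mk0 z hz0) D
  rw [Units.val_inv_eq_inv_val] at h6
  simp only [Units.val_mk0] at h6
  rw [h0] at h6
  have h7 : (Matrix.of fun x y : Cr G => (faceFa G hG.ho).dn z z⁻¹ D x (ε y).1).det = 0 := by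
    refine (mul_eq_zero.1 h6.symm).resolve_left ?_
    rcases hc₀ with h | h <;> rw [h] <;> simp
  obtain ⟨v, hv0, hv⟩ := Matrix.exists_mulVec_eq_zero_iff.2 h7
  set c := ext (faceFa G hG.ho) b ε v with hc
  have hL : ∀ p, (faceFa G hG.ho).L p = Lf G p := fun _ => rfl
  have hR : ∀ p, (faceFa G hG.ho).R p = Rf G p := fun _ => rfl
  have hrow : ∀ p, G.lf p = true → row D (-z ^ 2) (z / (1 + z ^ 2)) c p := by
    intro p hp
    have h8 := congr_fun hv ⟨p, hp⟩
    rw [Matrix.mulVec, dotProduct, Pi.zero_apply] at h8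
    simp only [Matrix.of_apply, Fa.dn] at h8
    have hk1 : (1 - -z ^ 2) * (z / (1 + z ^ 2)) = z := by
      rw [sub_neg_eq_add]
      field_simp
    constructor
    · intro hst
      rw [hst] at h8
      simp only [sub_mul, add_mul, Finset.sum_sub_distrib, Finset.sum_add_distrib, sum_ext, hL, hR] at h8
      rw [hk1]
      have h9 : z * z⁻¹ = 1 := mul_inv_cancel₀ hz0
      linear_combination z * h8 - (c (Rf G p)) * h9
    · intro hst
      have hst' : D.st p = .neg := by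
        cases hh : D.st p with
        | pos => exact absurd hh hst
        | neg => rfl
        | smooth => exact absurd hh (h.ns p)
      rw [hst'] at h8
      simp only [sub_mul, add_mul, Finset.sum_sub_distrib, Finset.sum_add_distrib, sum_ext, hL, hR] at h8
      rw [hk1]
      have h9 : z * z⁻¹ = 1 := mul_inv_cancel₀ hz0
      linear_combination z * h8 - (c (Lf G (G.nxt.symm p))) * h9
  have hz : ∀ f, c f = 0 := by
    refine far_faceE hG h ?_ (div_ne_zero hz0 h5) ?_ c hrow (e₀ := G.nxt.symm b) ?_ ?_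
    · rw [norm_neg, norm_pow]
      nlinarith
    · rw [norm_div, mul_div_assoc', div_le_one (by nlinarith)]
      refine le_trans ?_ h4
      nlinarith
    · rw [hc]
      unfold ext
      rw [dif_neg]
      exact fun h' => h'.1 rfl
    · rw [hc]
      unfold ext
      rw [dif_neg]
      exact fun h' => h'.2 rfl
  apply hv0
  funext y
  have h10 := hz (ε y).1
  rw [hc] at h10
  unfold ext at h10
  rw [dif_pos (ε y).2] at h10
  have h11 : ε.symm ⟨(ε y).1, (ε y).2⟩ = y := by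
    rw [Equiv.symm_apply_eq]
  rw [h11] at h10
  exact h10

end Pool.Agent.Helper43.AF
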